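import Pool.Agent.W2helper14.RB.TriA

set_option autoImplicit false

/-!
# `n` and `n (n + 1) / 2 + 1` in the random sieve model of Banks, Ford and Tao

For every prime `w` a residue class `a w` modulo `w` is chosen uniformly and independently. The random
set `R` consists of the natural numbers `n ≥ e ^ 2` which avoid the class `a w` for every prime `w` with
`∏_(v ≤ w) (1 - 1 / v) ≥ 1 / log n`; this is the random sieve model for the primes of Banks, Ford and
Tao, in which the classes `0 mod w` of the sieve of Eratosthenes are replaced by random ones.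

We prove that almost surely there are infinitely many `n ∈ R` with `n (n + 1) / 2 + 1 ∈ R` if and only if
`a 3 ≠ 1`, and that in this case their number is given by the formula of Bateman and Horn, with a square-root
error.

The engine is the Bateman-Horn theorem for this model of helper64 (`W2helper64.BQ`).
-/

namespace Pool.Agent.Results.MP_b07a8a_nt.RandomSieveTriangular

open Filter MeasureTheory Topology

/-- the product `V y = ∏_(w ≤ y, w prime) (1 - 1 / w)` -/
noncomputable def V (y : ℕ) : ℝ := ∏ w ∈ (Finset.Icc 1 y).filter Nat.Prime, (1 - 1 / (w : ℝ))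

/-- the random set: all `n ≥ e ^ 2` outside the chosen class `a w` for every prime `w` with
`V w ≥ 1 / log n` -/
def R (a : (w : Nat.Primes) → ZMod (w : ℕ)) : Set ℕ :=
  {n | Real.exp 2 ≤ n ∧ ∀ w : Nat.Primes, 1 ≤ V (w : ℕ) * Real.log n → ((n : ℕ) : ZMod (w : ℕ)) ≠ a w}

/-- the chosen classes `a w`, `w` prime, are independent and uniform modulo `w` -/
noncomputable def law : Measure ((w : Nat.Primes) → ZMod (w : ℕ)) :=
  Measure.infinitePi fun w : Nat.Primes => ProbabilityTheory.uniformOn (Set.univ : Set (ZMod (w : ℕ)))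

instance (w : Nat.Primes) : Fact (w : ℕ).Prime := ⟨w.2⟩

/-- `v w = 2 + (8 a_w - 7 | w) - [a_w ^ 2 - a_w + 2 = 0]`, the number of the classes `n` mod `w` with `n = a_w` or
`n (n + 1) / 2 + 1 = a_w`, for the primes `w ≥ 3` -/
noncomputable def v (a : (w : Nat.Primes) → ZMod (w : ℕ)) (w : Nat.Primes) : ℤ :=
  2 + quadraticChar (ZMod (w : ℕ)) (8 * a w - 7) - if a w ^ 2 - a w + 2 = 0 then 1 else 0

/-- the product of `w (w - v w) / (w - 1) ^ 2` over the primes `3 ≤ w ≤ z` -/
noncomputable def product (a : (w : Nat.Primes) → ZMod (w : ℕ)) (z : ℕ) : ℝ :=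
  ∏ w ∈ (Finset.Icc 3 z).subtype Nat.Prime,
    (((w : ℕ) : ℝ) * (((w : ℕ) : ℝ) - (v a w : ℝ)) / (((w : ℕ) : ℝ) - 1) ^ 2)

/-- the `n ∈ R` with `n (n + 1) / 2 + 1 ∈ R` -/
def pairs (a : (w : Nat.Primes) → ZMod (w : ℕ)) : Set ℕ := {n | n ∈ R a ∧ n * (n + 1) / 2 + 1 ∈ R a}

/-- the number of the `n ≤ x` with `n, n (n + 1) / 2 + 1 ∈ R` -/
noncomputable def count (a : (w : Nat.Primes) → ZMod (w : ℕ)) (x : ℕ) : ℕ :=
  {n : ℕ | n ≤ x ∧ n ∈ R a ∧ n * (n + 1) / 2 + 1 ∈ R a}.ncard

/-- the sum of `1 / (log n log (n (n + 1) / 2 + 1))` over the `8 ≤ n ≤ x` outside the class `a 2` modulo `2`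
(for the primes: over the odd `n`) -/
noncomputable def main (a : (w : Nat.Primes) → ZMod (w : ℕ)) (x : ℕ) : ℝ :=
  ∑ n ∈ (Finset.Icc 8 x).filter (fun n : ℕ => (n : ZMod 2) ≠ a ⟨2, Nat.prime_two⟩),
    1 / (Real.log n * Real.log ((n : ℝ) * (n + 1) / 2 + 1))

/-- Almost surely there are infinitely many `n ∈ R` with `n (n + 1) / 2 + 1 ∈ R` if and only if `a 3 ≠ 1`; and if
this is the case, the product of `w (w - v w) / (w - 1) ^ 2` over the primes `w ≥ 3` (in increasing order)
converges to some `S > 0`, the number of these `n ≤ x` is asymptotic to `S x / (2 log ^ 2 x)`, and it is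
`2 S ∑ 1 / (log n log (n (n + 1) / 2 + 1)) + O(x ^ (1 / 2 + ε))` for every `ε > 0`, the sum over the `8 ≤ n ≤ x`
outside the class `a 2` modulo `2`. -/
theorem result : ∀ᵐ a ∂law,
    ((pairs a).Infinite ↔ a ⟨3, Nat.prime_three⟩ ≠ 1) ∧
    (a ⟨3, Nat.prime_three⟩ ≠ 1 →
      ∃ S : ℝ, 0 < S ∧ Tendsto (product a) atTop (𝓝 S) ∧
        Tendsto (fun x : ℕ => (count a x : ℝ) * Real.log x ^ 2 / x) atTop (𝓝 (S / 2)) ∧
        ∀ ε : ℝ, 0 < ε →
          (fun x : ℕ => (count a x : ℝ) - 2 * S * main a x) =O[atTop] fun x : ℕ => (x : ℝ) ^ (1 / 2 + ε)) :=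
  Pool.Agent.W2helper14.RB.tri_ae

end Pool.Agent.Results.MP_b07a8a_nt.RandomSieveTriangular
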